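import Pool.Agent.Lib.MP_e46711_an.DefsB
import Pool.Agent.Lib.MP_e46711_an.H82.Basic

/-!
# MP_e46711_an, module B0d: comparison of the forms, general test functions
-/

open Set Filter Topology MeasureTheory
open scoped ContDiff

namespace Pool.Agent.Lib.MP_e46711_an.H19

open Pool.Agent.Lib.MP_e46711_an

/-! ### The measure `muT` -/

theorem muT_eq (ℓ : ℝ) : muT ℓ = (volume : Measure (ℝ × ℝ)).restrict (Ioc 0 ℓ ×ˢ Ioo (-1) 1) := by
  rw [muT, Measure.prod_restrict, Measure.volume_eq_prod]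

instance finite_muT (ℓ : ℝ) : IsFiniteMeasure (muT ℓ) := by
  unfold muT
  infer_instance

theorem muT_ae (ℓ : ℝ) : ∀ᵐ z ∂muT ℓ, z.1 ∈ Ioc 0 ℓ ∧ z.2 ∈ Ioo (-1:ℝ) 1 := by
  rw [muT_eq]
  exact ae_restrict_mem (measurableSet_Ioc.prod measurableSet_Ioo)

theorem bdd_ae {ℓ : ℝ} {f : ℝ × ℝ → ℝ} (hf : Continuous f) :
    ∃ C > 0, ∀ᵐ z ∂muT ℓ, |f z| ≤ C := by
  have hK : IsCompact (Icc (0:ℝ) ℓ ×ˢ Icc (-1:ℝ) 1) := isCompact_Icc.prod isCompact_Icc
  obtain ⟨C, hC⟩ := hK.exists_bound_of_continuousOn hf.continuousOn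
  refine ⟨max C 1, lt_of_lt_of_le one_pos (le_max_right _ _), ?_⟩
  filter_upwards [muT_ae ℓ] with z hz
  exact (hC z ⟨⟨hz.1.1.le, hz.1.2⟩, ⟨hz.2.1.le, hz.2.2.le⟩⟩).trans (le_max_left _ _)

theorem memLp_cont {ℓ : ℝ} {f : ℝ × ℝ → ℝ} (hf : Continuous f) : MemLp f 2 (muT ℓ) := by
  obtain ⟨C, _, hC⟩ := bdd_ae (ℓ := ℓ) hf
  exact MemLp.of_bound hf.aestronglyMeasurable C hC

theorem memLp_mul {ℓ : ℝ} {m W : ℝ × ℝ → ℝ} (hm : Continuous m) (hW : MemLp W 2 (muT ℓ)) :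
    MemLp (fun z => m z * W z) 2 (muT ℓ) := by
  obtain ⟨C, _, hC⟩ := bdd_ae (ℓ := ℓ) hm
  refine hW.of_le_mul (c := C) (hm.aestronglyMeasurable.mul hW.aestronglyMeasurable) ?_
  filter_upwards [hC] with z hz
  rw [norm_mul]
  exact mul_le_mul_of_nonneg_right hz (norm_nonneg _)

theorem int_mul {α : Type*} [MeasurableSpace α] {μ : Measure α} {f g : α → ℝ} (hf : MemLp f 2 μ)
    (hg : MemLp g 2 μ) : Integrable (fun z => f z * g z) μ :=
  MemLp.integrable_mul hf hg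

theorem dS_cont {ℓ : ℝ} {φ : ℝ × ℝ → ℝ} (h : C1per ℓ φ) : Continuous (dS φ) :=
  (h.1.continuous_fderiv one_ne_zero).clm_apply continuous_const

theorem dY_cont {ℓ : ℝ} {φ : ℝ × ℝ → ℝ} (h : C1per ℓ φ) : Continuous (dY φ) :=
  (h.1.continuous_fderiv one_ne_zero).clm_apply continuous_const

/-! ### The weight -/

section
variable {ℓ : ℝ} {h : ℝ → ℝ}

theorem h_bounds (hℓ : 0 < ℓ) (hs : ContDiff ℝ ∞ h) (hpos : ∀ s, 0 < h s) :
    ∃ a > 0, ∃ b > 0, ∃ K > 0, ∀ s ∈ Icc 0 ℓ, a ≤ h s ∧ h s ≤ b ∧ |deriv h s / h s| ≤ K := by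
  have hc := hs.continuous
  have hd : Continuous (deriv h) := hs.continuous_deriv (by simp)
  have hne : (Icc (0:ℝ) ℓ).Nonempty := ⟨0, le_refl _, hℓ.le⟩
  obtain ⟨s0, _, h0⟩ := isCompact_Icc.exists_isMinOn hne hc.continuousOn
  obtain ⟨s1, _, h1⟩ := isCompact_Icc.exists_isMaxOn hne hc.continuousOn
  obtain ⟨K, hK⟩ := (isCompact_Icc (a := (0:ℝ)) (b := ℓ)).exists_bound_of_continuousOn
    (hd.div hc fun s => (hpos s).ne').continuousOn
  refine ⟨h s0, hpos _, h s1, hpos _, max K 1, lt_of_lt_of_le one_pos (le_max_right _ _), ?_⟩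
  intro s hs'
  exact ⟨h0 hs', h1 hs', (hK s hs').trans (le_max_left _ _)⟩

theorem mult_cont (hs : ContDiff ℝ ∞ h) (hpos : ∀ s, 0 < h s) :
    Continuous fun z : ℝ × ℝ => deriv h z.1 / h z.1 * z.2 := by
  have hc := hs.continuous
  have hd : Continuous (deriv h) := hs.continuous_deriv (by simp)
  exact ((hd.comp continuous_fst).div (hc.comp continuous_fst) fun z => (hpos _).ne').mul
    continuous_snd

theorem G1_memLp (hs : ContDiff ℝ ∞ h) (hpos : ∀ s, 0 < h s) {V W : ℝ × ℝ → ℝ}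
    (hV : MemLp V 2 (muT ℓ)) (hW : MemLp W 2 (muT ℓ)) : MemLp (G1 h V W) 2 (muT ℓ) :=
  hV.sub (memLp_mul (mult_cont hs hpos) hW)

theorem G2_memLp (hs : ContDiff ℝ ∞ h) (hpos : ∀ s, 0 < h s) {δ : ℝ} (hδ : 0 < δ)
    {W : ℝ × ℝ → ℝ} (hW : MemLp W 2 (muT ℓ)) : MemLp (G2 h δ W) 2 (muT ℓ) := by
  have hc : Continuous fun z : ℝ × ℝ => (δ * h z.1)⁻¹ :=
    (continuous_const.mul (hs.continuous.comp continuous_fst)).inv₀
      fun z => (mul_pos hδ (hpos _)).ne'
  have := memLp_mul hc hW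
  refine this.congr_norm ?_ ?_
  · have e : G2 h δ W = fun z => (δ * h z.1)⁻¹ * W z := by
      funext z
      rw [G2, div_eq_mul_inv, mul_comm]
    rw [e]
    exact this.aestronglyMeasurable
  · refine ae_of_all _ fun z => ?_
    rw [G2, div_eq_mul_inv, mul_comm]

/-- the integrand of the form -/
theorem bil_int (hs : ContDiff ℝ ∞ h) (hpos : ∀ s, 0 < h s) {δ : ℝ} (hδ : 0 < δ)
    {V W V' W' : ℝ × ℝ → ℝ} (hV : MemLp V 2 (muT ℓ)) (hW : MemLp W 2 (muT ℓ))
    (hV' : MemLp V' 2 (muT ℓ)) (hW' : MemLp W' 2 (muT ℓ)) :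
    Integrable (fun z => (G1 h V W z * G1 h V' W' z + G2 h δ W z * G2 h δ W' z) * (h z.1 / 2))
      (muT ℓ) := by
  have e : (fun z : ℝ × ℝ => (G1 h V W z * G1 h V' W' z + G2 h δ W z * G2 h δ W' z) * (h z.1 / 2))
      = fun z => (h z.1 / 2 * G1 h V W z) * G1 h V' W' z
        + (h z.1 / 2 * G2 h δ W z) * G2 h δ W' z := by
    funext z; ring
  rw [e]
  have hc : Continuous fun z : ℝ × ℝ => h z.1 / 2 :=
    (hs.continuous.comp continuous_fst).div_const 2
  exact (int_mul (memLp_mul hc (G1_memLp hs hpos hV hW)) (G1_memLp hs hpos hV' hW')).add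
    (int_mul (memLp_mul hc (G2_memLp hs hpos hδ hW)) (G2_memLp hs hpos hδ hW'))

theorem bil_sub (hs : ContDiff ℝ ∞ h) (hpos : ∀ s, 0 < h s) {δ : ℝ} (hδ : 0 < δ)
    {V W V' W' V'' W'' : ℝ × ℝ → ℝ} (hV : MemLp V 2 (muT ℓ)) (hW : MemLp W 2 (muT ℓ))
    (hV' : MemLp V' 2 (muT ℓ)) (hW' : MemLp W' 2 (muT ℓ)) (hV'' : MemLp V'' 2 (muT ℓ))
    (hW'' : MemLp W'' 2 (muT ℓ)) :
    Bil ℓ h δ V W V' W' - Bil ℓ h δ V W V'' W''
      = Bil ℓ h δ V W (fun z => V' z - V'' z) (fun z => W' z - W'' z) := by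
  unfold Bil
  rw [← integral_sub (bil_int hs hpos hδ hV hW hV' hW') (bil_int hs hpos hδ hV hW hV'' hW'')]
  refine integral_congr_ae (ae_of_all _ fun z => ?_)
  simp only [G1, G2]
  have h0 : δ * h z.1 ≠ 0 := (mul_pos hδ (hpos _)).ne'
  field_simp
  ring

end

/-! ### Comparison -/

theorem formCompare : FormCompare := by
  intro ℓ hℓ h hs _ hpos
  obtain ⟨a, ha, b, hb, K, hK, hbd⟩ := h_bounds hℓ hs hpos
  set C1 : ℝ := (2 + 2 * K ^ 2 * b ^ 2 + b ^ 2) * (2 / a) with hC1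
  set C2 : ℝ := (2 + 2 * K ^ 2 + 1 / a ^ 2) * (b / 2) with hC2
  have hC1p : 0 < C1 := by positivity
  have hC2p : 0 < C2 := by positivity
  refine ⟨C1 + C2, by positivity, fun δ hδ V W hV hW => ?_⟩
  have hδ0 := hδ.1
  have hδ1 := hδ.2
  have iV : Integrable (fun z => V z ^ 2) (muT ℓ) := hV.integrable_sq
  have iW : Integrable (fun z => W z ^ 2 / δ ^ 2) (muT ℓ) := hW.integrable_sq.div_const _
  have iB := bil_int hs hpos hδ0 hV hW hV hW
  have e1 : (∫ z, V z ^ 2 ∂muT ℓ) + (∫ z, W z ^ 2 ∂muT ℓ) / δ ^ 2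
      = ∫ z, (V z ^ 2 + W z ^ 2 / δ ^ 2) ∂muT ℓ := by
    rw [integral_add iV iW, integral_div]
  have hnn : 0 ≤ ∫ z, (V z ^ 2 + W z ^ 2 / δ ^ 2) ∂muT ℓ := integral_nonneg fun z => by positivity
  have key : ∀ᵐ z ∂muT ℓ,
      V z ^ 2 + W z ^ 2 / δ ^ 2
        ≤ C1 * ((G1 h V W z * G1 h V W z + G2 h δ W z * G2 h δ W z) * (h z.1 / 2)) ∧
      (G1 h V W z * G1 h V W z + G2 h δ W z * G2 h δ W z) * (h z.1 / 2)
        ≤ C2 * (V z ^ 2 + W z ^ 2 / δ ^ 2) := by
    filter_upwards [muT_ae ℓ] with z hz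
    obtain ⟨h1, h2, h3⟩ := hbd z.1 ⟨hz.1.1.le, hz.1.2⟩
    have hy : |z.2| ≤ 1 := abs_le.2 ⟨hz.2.1.le, hz.2.2.le⟩
    have hm : |deriv h z.1 / h z.1 * z.2| ≤ K := by
      rw [abs_mul]
      calc |deriv h z.1 / h z.1| * |z.2| ≤ K * 1 :=
            mul_le_mul h3 hy (abs_nonneg _) hK.le
        _ = K := mul_one K
    have hm2 : (deriv h z.1 / h z.1 * z.2) ^ 2 ≤ K ^ 2 := by
      rw [← sq_abs]
      exact pow_le_pow_left₀ (abs_nonneg _) hm 2
    have hp := hpos z.1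
    have hw : W z = (δ * h z.1) * G2 h δ W z := by
      rw [G2]
      have : δ * h z.1 ≠ 0 := (mul_pos hδ0 hp).ne'
      field_simp
    have hG1 : G1 h V W z = V z - deriv h z.1 / h z.1 * z.2 * W z := rfl
    set x := G1 h V W z
    set y := G2 h δ W z
    set m := deriv h z.1 / h z.1 * z.2
    set H := h z.1
    have hV' : V z = x + m * W z := by rw [hG1]; ring
    have hd2 : δ ^ 2 ≤ 1 := by nlinarith
    have hH2 : H ^ 2 ≤ b ^ 2 := pow_le_pow_left₀ hp.le h2 2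
    have hH2' : a ^ 2 ≤ H ^ 2 := pow_le_pow_left₀ ha.le h1 2
    have hWy : W z ^ 2 / δ ^ 2 = H ^ 2 * y ^ 2 := by
      rw [hw]; field_simp
    have hWW : W z ^ 2 ≤ W z ^ 2 / δ ^ 2 := by
      rw [le_div_iff₀ (by positivity)]
      nlinarith [sq_nonneg (W z)]
    have hmW : (m * W z) ^ 2 ≤ K ^ 2 * (W z ^ 2 / δ ^ 2) := by
      rw [mul_pow]
      exact mul_le_mul hm2 hWW (sq_nonneg _) (sq_nonneg _)
    have hWb : W z ^ 2 / δ ^ 2 ≤ b ^ 2 * y ^ 2 := by
      rw [hWy]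
      exact mul_le_mul_of_nonneg_right hH2 (sq_nonneg _)
    have hya : y ^ 2 ≤ (1 / a ^ 2) * (W z ^ 2 / δ ^ 2) := by
      rw [hWy]
      have : 1 / a ^ 2 * (H ^ 2 * y ^ 2) = (H ^ 2 / a ^ 2) * y ^ 2 := by ring
      rw [this]
      have h4 : 1 ≤ H ^ 2 / a ^ 2 := by
        rw [le_div_iff₀ (by positivity), one_mul]; exact hH2'
      nlinarith [sq_nonneg y]
    constructor
    · have s1 : V z ^ 2 ≤ 2 * x ^ 2 + 2 * (m * W z) ^ 2 := by
        rw [hV']; nlinarith [sq_nonneg (x - m * W z)]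
      have s2 : V z ^ 2 + W z ^ 2 / δ ^ 2
          ≤ (2 + 2 * K ^ 2 * b ^ 2 + b ^ 2) * (x * x + y * y) := by
        have s3 : K ^ 2 * (W z ^ 2 / δ ^ 2) ≤ K ^ 2 * (b ^ 2 * y ^ 2) :=
          mul_le_mul_of_nonneg_left hWb (sq_nonneg _)
        have s4 : 0 ≤ (2 * K ^ 2 * b ^ 2 + b ^ 2) * x ^ 2 := by positivity
        have s5 : 0 ≤ y ^ 2 := sq_nonneg _
        nlinarith
      have s6 : x * x + y * y ≤ (2 / a) * ((x * x + y * y) * (H / 2)) := by
        have : (2 / a) * ((x * x + y * y) * (H / 2)) = (H / a) * (x * x + y * y) := by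
          field_simp
        rw [this]
        have h4 : 1 ≤ H / a := by rw [le_div_iff₀ ha, one_mul]; exact h1
        nlinarith [mul_self_nonneg x, mul_self_nonneg y]
      calc V z ^ 2 + W z ^ 2 / δ ^ 2 ≤ (2 + 2 * K ^ 2 * b ^ 2 + b ^ 2) * (x * x + y * y) := s2
        _ ≤ (2 + 2 * K ^ 2 * b ^ 2 + b ^ 2) * ((2 / a) * ((x * x + y * y) * (H / 2))) :=
            mul_le_mul_of_nonneg_left s6 (by positivity)
        _ = _ := by rw [hC1]; ring
    · have s1 : x ^ 2 ≤ 2 * V z ^ 2 + 2 * (m * W z) ^ 2 := by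
        have : x = V z - m * W z := hG1
        rw [this]; nlinarith [sq_nonneg (V z + m * W z)]
      have s2 : x * x + y * y ≤ (2 + 2 * K ^ 2 + 1 / a ^ 2) * (V z ^ 2 + W z ^ 2 / δ ^ 2) := by
        have s4 : 0 ≤ (2 * K ^ 2 + 1 / a ^ 2) * V z ^ 2 := by positivity
        have s5 : 0 ≤ W z ^ 2 / δ ^ 2 := by positivity
        nlinarith
      have s3 : 0 ≤ x * x + y * y := add_nonneg (mul_self_nonneg _) (mul_self_nonneg _)
      calc (x * x + y * y) * (H / 2) ≤ (x * x + y * y) * (b / 2) :=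
            mul_le_mul_of_nonneg_left (by linarith) s3
        _ ≤ ((2 + 2 * K ^ 2 + 1 / a ^ 2) * (V z ^ 2 + W z ^ 2 / δ ^ 2)) * (b / 2) :=
            mul_le_mul_of_nonneg_right s2 (by positivity)
        _ = _ := by rw [hC2]; ring
  have hB0 : 0 ≤ Bil ℓ h δ V W V W := by
    refine integral_nonneg fun z => ?_
    have := hpos z.1
    have h5 : 0 ≤ G1 h V W z * G1 h V W z + G2 h δ W z * G2 h δ W z :=
      add_nonneg (mul_self_nonneg _) (mul_self_nonneg _)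
    exact mul_nonneg h5 (by positivity)
  rw [e1]
  constructor
  · calc ∫ z, (V z ^ 2 + W z ^ 2 / δ ^ 2) ∂muT ℓ ≤ C1 * Bil ℓ h δ V W V W := by
          unfold Bil
          rw [← integral_const_mul]
          exact integral_mono_ae (iV.add iW) (iB.const_mul _) (key.mono fun z hz => hz.1)
      _ ≤ (C1 + C2) * Bil ℓ h δ V W V W := by nlinarith
  · calc Bil ℓ h δ V W V W ≤ C2 * ∫ z, (V z ^ 2 + W z ^ 2 / δ ^ 2) ∂muT ℓ := by
          unfold Bil
          rw [← integral_const_mul]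
          exact integral_mono_ae iB ((iV.add iW).const_mul _) (key.mono fun z hz => hz.2)
      _ ≤ (C1 + C2) * ∫ z, (V z ^ 2 + W z ^ 2 / δ ^ 2) ∂muT ℓ := by nlinarith

/-! ### General test functions -/

theorem tend0 {α : Type*} [MeasurableSpace α] {μ : Measure α} {F : α → ℝ} (hF : MemLp F 2 μ)
    {G H : ℕ → α → ℝ} (hG : ∀ n, MemLp (G n) 2 μ)
    (hG0 : Tendsto (fun n => ∫ z, G n z ^ 2 ∂μ) atTop (𝓝 0))
    (hH : ∀ n, ∀ᵐ z ∂μ, |H n z| ≤ |F z| * |G n z|) :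
    Tendsto (fun n => ∫ z, H n z ∂μ) atTop (𝓝 0) := by
  have hb : ∀ η > 0, ∀ n, |∫ z, H n z ∂μ| ≤ η * (∫ z, F z ^ 2 ∂μ) + (1 / η) * ∫ z, G n z ^ 2 ∂μ := by
    intro η hη n
    have i1 : Integrable (fun z => η * F z ^ 2 + (1 / η) * G n z ^ 2) μ :=
      (hF.integrable_sq.const_mul _).add ((hG n).integrable_sq.const_mul _)
    have h1 : ‖∫ z, H n z ∂μ‖ ≤ ∫ z, (η * F z ^ 2 + (1 / η) * G n z ^ 2) ∂μ := by
      refine norm_integral_le_of_norm_le i1 ?_
      filter_upwards [hH n] with z hz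
      rw [Real.norm_eq_abs]
      refine hz.trans ?_
      have h2 : 0 ≤ (η * |F z| - |G n z|) ^ 2 / η := by positivity
      have h3 : (η * |F z| - |G n z|) ^ 2 / η
          = η * F z ^ 2 + (1 / η) * G n z ^ 2 - 2 * (|F z| * |G n z|) := by
        rw [← sq_abs (F z), ← sq_abs (G n z)]
        field_simp
        ring
      have h4 : 0 ≤ |F z| * |G n z| := by positivity
      linarith
    rw [integral_add (hF.integrable_sq.const_mul _) ((hG n).integrable_sq.const_mul _),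
      integral_const_mul, integral_const_mul] at h1
    exact h1
  have hF0 : 0 ≤ ∫ z, F z ^ 2 ∂μ := integral_nonneg fun z => sq_nonneg _
  rw [Metric.tendsto_atTop]
  intro ε hε
  set A := ∫ z, F z ^ 2 ∂μ with hA
  set η := ε / (2 * (A + 1)) with hη
  have hηp : 0 < η := by positivity
  rw [Metric.tendsto_atTop] at hG0
  obtain ⟨N, hN⟩ := hG0 (η * (ε / 2)) (by positivity)
  refine ⟨N, fun n hn => ?_⟩
  have h1 := hN n hn
  rw [Real.dist_eq, sub_zero, abs_of_nonneg (integral_nonneg fun z => sq_nonneg _)] at h1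
  rw [Real.dist_eq, sub_zero]
  have h2 := hb η hηp n
  have h3 : (1 / η) * (∫ z, G n z ^ 2 ∂μ) < ε / 2 := by
    rw [one_div, inv_mul_lt_iff₀ hηp]
    exact h1
  have h4 : η * A < ε / 2 + 0 := by
    rw [hη, add_zero, div_mul_eq_mul_div, div_lt_div_iff₀ (by positivity) (by norm_num)]
    nlinarith
  linarith

theorem weakExtend : WeakExtend := by
  intro p hp ℓ hℓ h hs _ hpos δ hδ lam U V W hsol U' V' W' h1
  obtain ⟨φ, hφ, hlim⟩ := h1.approx
  have hU := hsol.h1.mU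
  have hV := hsol.h1.mV
  have hW := hsol.h1.mW
  have hU' := h1.mU
  have hV' := h1.mV
  have hW' := h1.mW
  have mφ : ∀ n, MemLp (φ n) 2 (muT ℓ) := fun n => memLp_cont (hφ n).1.continuous
  have mS : ∀ n, MemLp (dS (φ n)) 2 (muT ℓ) := fun n => memLp_cont (dS_cont (hφ n))
  have mY : ∀ n, MemLp (dY (φ n)) 2 (muT ℓ) := fun n => memLp_cont (dY_cont (hφ n))
  have i0 : ∀ n, Integrable (fun z => (φ n z - U' z) ^ 2) (muT ℓ) :=
    fun n => ((mφ n).sub hU').integrable_sq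
  have i1 : ∀ n, Integrable (fun z => (dS (φ n) z - V' z) ^ 2) (muT ℓ) :=
    fun n => ((mS n).sub hV').integrable_sq
  have i2 : ∀ n, Integrable (fun z => (dY (φ n) z - W' z) ^ 2) (muT ℓ) :=
    fun n => ((mY n).sub hW').integrable_sq
  have l0 : Tendsto (fun n => ∫ z, (U' z - φ n z) ^ 2 ∂muT ℓ) atTop (𝓝 0) := by
    refine squeeze_zero (fun n => integral_nonneg fun z => sq_nonneg _) (fun n => ?_) hlim
    refine integral_mono (hU'.sub (mφ n)).integrable_sq (((i0 n).add (i1 n)).add (i2 n))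
      fun z => ?_
    show (U' z - φ n z) ^ 2 ≤ (φ n z - U' z) ^ 2 + (dS (φ n) z - V' z) ^ 2 + (dY (φ n) z - W' z) ^ 2
    nlinarith [sq_nonneg (dS (φ n) z - V' z), sq_nonneg (dY (φ n) z - W' z)]
  -- the gradients
  have mG : ∀ n, MemLp (fun z => |V' z - dS (φ n) z| + |W' z - dY (φ n) z|) 2 (muT ℓ) :=
    fun n => (hV'.sub (mS n)).abs.add (hW'.sub (mY n)).abs
  have l1 : Tendsto (fun n => ∫ z, (|V' z - dS (φ n) z| + |W' z - dY (φ n) z|) ^ 2 ∂muT ℓ)
      atTop (𝓝 0) := by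
    have hlim2 := hlim.const_mul 2
    rw [mul_zero] at hlim2
    refine squeeze_zero (fun n => integral_nonneg fun z => sq_nonneg _) (fun n => ?_) hlim2
    rw [← integral_const_mul]
    refine integral_mono (mG n).integrable_sq ((((i0 n).add (i1 n)).add (i2 n)).const_mul 2)
      fun z => ?_
    show (|V' z - dS (φ n) z| + |W' z - dY (φ n) z|) ^ 2
      ≤ 2 * ((φ n z - U' z) ^ 2 + (dS (φ n) z - V' z) ^ 2 + (dY (φ n) z - W' z) ^ 2)
    have e1 : (dS (φ n) z - V' z) ^ 2 = |V' z - dS (φ n) z| ^ 2 := by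
      rw [sq_abs]; ring
    have e2 : (dY (φ n) z - W' z) ^ 2 = |W' z - dY (φ n) z| ^ 2 := by
      rw [sq_abs]; ring
    rw [e1, e2]
    nlinarith [sq_nonneg (|V' z - dS (φ n) z| - |W' z - dY (φ n) z|), sq_nonneg (φ n z - U' z)]
  obtain ⟨a, ha, b, hb, K, hK, hbd⟩ := h_bounds hℓ hs hpos
  -- the form
  have t1 : Tendsto (fun n => Bil ℓ h δ V W V' W' - Bil ℓ h δ V W (dS (φ n)) (dY (φ n)))
      atTop (𝓝 0) := by
    have e : (fun n => Bil ℓ h δ V W V' W' - Bil ℓ h δ V W (dS (φ n)) (dY (φ n)))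
        = fun n => Bil ℓ h δ V W (fun z => V' z - dS (φ n) z) (fun z => W' z - dY (φ n) z) := by
      funext n
      exact bil_sub hs hpos hδ hV hW hV' hW' (mS n) (mY n)
    rw [e]
    set D : ℝ := ((1 + K) * (1 + K) + (1 / (δ * a)) * (1 / (δ * a))) * (b / 2) with hD
    have hD0 : 0 ≤ D := by positivity
    have mF : MemLp (fun z => D * (|V z| + |W z|)) 2 (muT ℓ) := (hV.abs.add hW.abs).const_mul D
    refine tend0 mF mG l1 fun n => ?_
    filter_upwards [muT_ae ℓ] with z hz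
    obtain ⟨g1, g2, g3⟩ := hbd z.1 ⟨hz.1.1.le, hz.1.2⟩
    have hy : |z.2| ≤ 1 := abs_le.2 ⟨hz.2.1.le, hz.2.2.le⟩
    have hm : |deriv h z.1 / h z.1 * z.2| ≤ K := by
      rw [abs_mul]
      calc |deriv h z.1 / h z.1| * |z.2| ≤ K * 1 :=
            mul_le_mul g3 hy (abs_nonneg _) hK.le
        _ = K := mul_one K
    have hp := hpos z.1
    have b1 : ∀ X Y : ℝ × ℝ → ℝ, |G1 h X Y z| ≤ (1 + K) * (|X z| + |Y z|) := by
      intro X Y
      rw [G1]
      calc |X z - deriv h z.1 / h z.1 * z.2 * Y z|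
          ≤ |X z| + |deriv h z.1 / h z.1 * z.2 * Y z| := abs_sub _ _
        _ = |X z| + |deriv h z.1 / h z.1 * z.2| * |Y z| := by rw [abs_mul (_ * z.2)]
        _ ≤ |X z| + K * |Y z| := by
            have := mul_le_mul_of_nonneg_right hm (abs_nonneg (Y z))
            linarith
        _ ≤ (1 + K) * (|X z| + |Y z|) := by
            have := abs_nonneg (X z)
            have := abs_nonneg (Y z)
            nlinarith
    have b2 : ∀ X Y : ℝ × ℝ → ℝ, |G2 h δ Y z| ≤ (1 / (δ * a)) * (|X z| + |Y z|) := by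
      intro X Y
      rw [G2, abs_div, abs_of_pos (mul_pos hδ hp)]
      have q1 : |Y z| / (δ * h z.1) ≤ |Y z| / (δ * a) :=
        div_le_div_of_nonneg_left (abs_nonneg _) (mul_pos hδ ha)
          (mul_le_mul_of_nonneg_left g1 hδ.le)
      have q2 : |Y z| / (δ * a) ≤ (|X z| + |Y z|) / (δ * a) :=
        div_le_div_of_nonneg_right (by linarith [abs_nonneg (X z)]) (mul_pos hδ ha).le
      calc |Y z| / (δ * h z.1) ≤ (|X z| + |Y z|) / (δ * a) := q1.trans q2
        _ = _ := by ring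
    have q0 : 0 ≤ |V z| + |W z| := by positivity
    have q1 : 0 ≤ |V' z - dS (φ n) z| + |W' z - dY (φ n) z| := by positivity
    rw [abs_mul, abs_of_nonneg (by positivity : (0:ℝ) ≤ h z.1 / 2),
      abs_of_nonneg (mul_nonneg hD0 q0), abs_of_nonneg q1]
    have r1 := b1 V W
    have r2 := b1 (fun z => V' z - dS (φ n) z) (fun z => W' z - dY (φ n) z)
    have r3 := b2 V W
    have r4 := b2 (fun z => V' z - dS (φ n) z) (fun z => W' z - dY (φ n) z)
    set A := |V z| + |W z|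
    set A' := |V' z - dS (φ n) z| + |W' z - dY (φ n) z|
    have r5 : |G1 h V W z * G1 h (fun z => V' z - dS (φ n) z) (fun z => W' z - dY (φ n) z) z
        + G2 h δ W z * G2 h δ (fun z => W' z - dY (φ n) z) z|
        ≤ ((1 + K) * (1 + K) + (1 / (δ * a)) * (1 / (δ * a))) * (A * A') := by
      refine (abs_add_le _ _).trans ?_
      rw [abs_mul, abs_mul]
      have k1 : 0 ≤ 1 + K := by positivity
      have k2 : 0 ≤ 1 / (δ * a) := by positivity
      have m1 := mul_le_mul r1 r2 (abs_nonneg _) (mul_nonneg k1 q0)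
      have m2 := mul_le_mul r3 r4 (abs_nonneg _) (mul_nonneg k2 q0)
      calc _ ≤ (1 + K) * A * ((1 + K) * A') + 1 / (δ * a) * A * (1 / (δ * a) * A') :=
            add_le_add m1 m2
        _ = _ := by ring
    calc _ ≤ ((1 + K) * (1 + K) + (1 / (δ * a)) * (1 / (δ * a))) * (A * A') * (b / 2) :=
          mul_le_mul r5 (by linarith) (by positivity) (by positivity)
      _ = D * A * A' := by rw [hD]; ring
  -- the right-hand side
  have omc : Continuous fun z : ℝ × ℝ => h z.1 * om ℓ h δ z / 2 := by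
    have hc := hs.continuous.comp (continuous_fst : Continuous fun z : ℝ × ℝ => z.1)
    have ho : Continuous (om ℓ h δ) := by
      unfold om
      exact Real.continuous_exp.comp
        (((continuous_const.mul hc).mul continuous_snd).div_const ℓ)
    exact (hc.mul ho).div_const 2
  have mg : MemLp (fun z => (h z.1 * om ℓ h δ z / 2) * gg p (U z)) 2 (muT ℓ) := by
    refine memLp_mul omc ?_
    have m1 : MemLp (fun _ : ℝ × ℝ => (1:ℝ)) 2 (muT ℓ) := memLp_const 1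
    have m2 : MemLp (fun z => 2 * |U z|) 2 (muT ℓ) := hU.abs.const_mul 2
    have mU1 : MemLp (fun z => 1 + 2 * |U z|) 2 (muT ℓ) := m1.add m2
    refine mU1.mono ((continuous_gg hp.1 hp.2).comp_aestronglyMeasurable hU.aestronglyMeasurable) ?_
    refine ae_of_all _ fun z => ?_
    rw [Real.norm_eq_abs, Real.norm_eq_abs, abs_of_nonneg (by positivity : (0:ℝ) ≤ 1 + 2 * |U z|)]
    exact abs_gg_le hp.1 hp.2 _
  have t2 : Tendsto (fun n => Inu ℓ h δ (fun z => gg p (U z) * U' z)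
      - Inu ℓ h δ (fun z => gg p (U z) * φ n z)) atTop (𝓝 0) := by
    have e : (fun n => Inu ℓ h δ (fun z => gg p (U z) * U' z)
        - Inu ℓ h δ (fun z => gg p (U z) * φ n z))
        = fun n => ∫ z, ((h z.1 * om ℓ h δ z / 2) * gg p (U z)) * (U' z - φ n z) ∂muT ℓ := by
      funext n
      unfold Inu
      rw [← integral_sub]
      · refine integral_congr_ae (ae_of_all _ fun z => ?_)
        show _ = _
        ring
      · refine (int_mul mg hU').congr (ae_of_all _ fun z => ?_)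
        show _ = _
        ring
      · refine (int_mul mg (mφ n)).congr (ae_of_all _ fun z => ?_)
        show _ = _
        ring
    rw [e]
    refine tend0 mg (fun n => hU'.sub (mφ n)) l0 fun n => ae_of_all _ fun z => ?_
    show |_ * (U' z - φ n z)| ≤ _ * |(U' - φ n) z|
    rw [abs_mul]
    rfl
  have t3 : Tendsto (fun n => (Bil ℓ h δ V W V' W' - Bil ℓ h δ V W (dS (φ n)) (dY (φ n)))
      - lam * (Inu ℓ h δ (fun z => gg p (U z) * U' z)
        - Inu ℓ h δ (fun z => gg p (U z) * φ n z))) atTop (𝓝 0) := by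
    simpa using t1.sub (t2.const_mul lam)
  have t4 : Tendsto (fun _ : ℕ => Bil ℓ h δ V W V' W'
      - lam * Inu ℓ h δ (fun z => gg p (U z) * U' z)) atTop (𝓝 0) := by
    refine t3.congr fun n => ?_
    rw [hsol.eq (φ n) (hφ n)]
    ring
  have := tendsto_nhds_unique t4 tendsto_const_nhds
  linarith

end Pool.Agent.Lib.MP_e46711_an.H19
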