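import Pool.Agent.Lib.MP_e46711_an.DefsC

/-!
# MP_e46711_an, module C0: rings exist
-/

open Set Filter Topology MeasureTheory
open scoped ContDiff

namespace Pool.Agent.Lib.MP_e46711_an.H19

open Pool.Agent.Lib.MP_e46711_an

/-- the periodic continuation of `f` restricted to `[0, ℓ)` -/
noncomputable def perz (ℓ : ℝ) (f : ℝ → ℝ) (s : ℝ) : ℝ := f (s - ⌊s / ℓ⌋ * ℓ)

theorem perz_add {ℓ : ℝ} (hℓ : 0 < ℓ) (f : ℝ → ℝ) (s : ℝ) : perz ℓ f (s + ℓ) = perz ℓ f s := by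
  unfold perz
  have h : (s + ℓ) / ℓ = s / ℓ + 1 := by field_simp
  rw [h, Int.floor_add_one]
  congr 1
  push_cast
  ring

theorem perz_eq {ℓ : ℝ} (hℓ : 0 < ℓ) {f : ℝ → ℝ} {c : ℝ} (h0 : f 0 = c) (h1 : f ℓ = c) {s : ℝ}
    (hs : s ∈ Icc 0 ℓ) : perz ℓ f s = f s := by
  unfold perz
  rcases hs.2.eq_or_lt with h | h
  · subst h
    rw [div_self hℓ.ne', Int.floor_one]
    simp [h0, h1]
  · have : ⌊s / ℓ⌋ = 0 := by
      rw [Int.floor_eq_zero_iff]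
      exact ⟨div_nonneg hs.1 hℓ.le, (div_lt_one hℓ).2 h⟩
    rw [this]
    simp

theorem perz_contDiff {ℓ : ℝ} (hℓ : 0 < ℓ) {f : ℝ → ℝ} (hf : ContDiff ℝ ∞ f) {c α β : ℝ}
    (hα : 0 < α) (hβ : β < ℓ) (h0 : ∀ s ≤ α, f s = c) (h1 : ∀ s, β ≤ s → f s = c) :
    ContDiff ℝ ∞ (perz ℓ f) := by
  rw [contDiff_iff_contDiffAt]
  intro s0
  set n : ℤ := ⌊s0 / ℓ⌋ with hn
  have hn1 : (n : ℝ) * ℓ ≤ s0 := by
    have := Int.floor_le (s0 / ℓ)
    rwa [le_div_iff₀ hℓ] at this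
  have hn2 : s0 < ((n : ℝ) + 1) * ℓ := by
    have := Int.lt_floor_add_one (s0 / ℓ)
    rwa [div_lt_iff₀ hℓ] at this
  have hev : perz ℓ f =ᶠ[𝓝 s0] fun s => f (s - n * ℓ) := by
    have e1 : ∀ᶠ s in 𝓝 s0, s < ((n : ℝ) + 1) * ℓ := eventually_lt_nhds hn2
    have e2 : ∀ᶠ s in 𝓝 s0, (n : ℝ) * ℓ - (ℓ - β) < s :=
      eventually_gt_nhds (by linarith)
    have e3 : ∀ᶠ s in 𝓝 s0, (n : ℝ) * ℓ - ℓ < s := eventually_gt_nhds (by linarith)
    filter_upwards [e1, e2, e3] with s hs1 hs2 hs3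
    unfold perz
    rcases le_or_gt ((n : ℝ) * ℓ) s with h | h
    · have : ⌊s / ℓ⌋ = n := by
        rw [Int.floor_eq_iff]
        refine ⟨(le_div_iff₀ hℓ).2 h, (div_lt_iff₀ hℓ).2 hs1⟩
      rw [this]
    · have : ⌊s / ℓ⌋ = n - 1 := by
        rw [Int.floor_eq_iff]
        push_cast
        refine ⟨(le_div_iff₀ hℓ).2 (by linarith), (div_lt_iff₀ hℓ).2 (by linarith)⟩
      rw [this]
      push_cast
      rw [h1 _ (by linarith), h0 _ (by linarith)]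
  refine ContDiffAt.congr_of_eventuallyEq ?_ hev
  exact (hf.comp (contDiff_id.sub contDiff_const)).contDiffAt

/-- a transition between `b` and `b + w` -/
noncomputable def tr (w b s : ℝ) : ℝ := Real.smoothTransition ((s - b) / w)

theorem tr_zero {w b s : ℝ} (hw : 0 < w) (h : s ≤ b) : tr w b s = 0 :=
  Real.smoothTransition.zero_of_nonpos (div_nonpos_of_nonpos_of_nonneg (by linarith) hw.le)

theorem tr_one {w b s : ℝ} (hw : 0 < w) (h : b + w ≤ s) : tr w b s = 1 :=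
  Real.smoothTransition.one_of_one_le (by rw [le_div_iff₀ hw]; linarith)

theorem tr_mem (w b s : ℝ) : tr w b s ∈ Icc (0:ℝ) 1 :=
  ⟨Real.smoothTransition.nonneg _, Real.smoothTransition.le_one _⟩

theorem tr_contDiff (w b : ℝ) : ContDiff ℝ ∞ (tr w b) := by
  have : ContDiff ℝ ∞ Real.smoothTransition := Real.smoothTransition.contDiff
  exact this.comp ((contDiff_id.sub contDiff_const).div_const w)

theorem mix_up {k k' t : ℝ} (h : k ≤ k') (ht : t ∈ Icc (0:ℝ) 1) : k + (k' - k) * t ∈ Icc k k' := by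
  constructor
  · nlinarith [ht.1, ht.2]
  · nlinarith [ht.1, ht.2]

theorem mix_down {k k' t : ℝ} (h : k' ≤ k) (ht : t ∈ Icc (0:ℝ) 1) :
    k + (k' - k) * t ∈ Icc k' k := by
  constructor
  · nlinarith [ht.1, ht.2]
  · nlinarith [ht.1, ht.2]

variable (P : Par)

/-- the weight on the line -/
noncomputable def hT (ε s : ℝ) : ℝ :=
  P.M / ε ^ 2 + (1 - P.M / ε ^ 2) * tr (ε ^ 3) (P.s1 ε) s
    + (P.m / ε ^ 2 - 1) * tr (ε ^ 3) (P.s3 ε) s
    + (P.c * ε ^ 2 - P.m / ε ^ 2) * tr (ε ^ 3) (P.s5 ε) s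
    + (ε - P.c * ε ^ 2) * tr (ε ^ 3) (P.s7 ε) s
    + (1 / ε - ε) * tr (ε ^ 3) (P.s9 ε) s
    + (P.a * ε - 1 / ε) * tr (ε ^ 3) (P.s11 ε) s
    + (P.M / ε ^ 2 - P.a * ε) * tr (ε ^ 3) (P.s13 ε) s

theorem hT_contDiff (ε : ℝ) : ContDiff ℝ ∞ (hT P ε) := by
  unfold hT
  exact ((((((contDiff_const.add (contDiff_const.mul (tr_contDiff _ _))).add
    (contDiff_const.mul (tr_contDiff _ _))).add (contDiff_const.mul (tr_contDiff _ _))).add
    (contDiff_const.mul (tr_contDiff _ _))).add (contDiff_const.mul (tr_contDiff _ _))).add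
    (contDiff_const.mul (tr_contDiff _ _))).add (contDiff_const.mul (tr_contDiff _ _))

/-- the order of the levels -/
structure Small (ε : ℝ) : Prop where
  pos : 0 < ε
  o1 : 1 ≤ P.M / ε ^ 2
  o2 : 1 ≤ P.m / ε ^ 2
  o3 : P.c * ε ^ 2 ≤ P.m / ε ^ 2
  o4 : P.c * ε ^ 2 ≤ ε
  o5 : ε ≤ 1 / ε
  o6 : P.a * ε ≤ 1 / ε
  o7 : P.a * ε ≤ P.M / ε ^ 2

theorem small_ev : ∀ᶠ ε in 𝓝[>] (0:ℝ), Small P ε := by
  have hM := P.hM
  have hm := P.hm
  have hc := P.hc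
  have ha : 0 < P.a := lt_trans (lt_trans (lt_trans P.hL0 P.hL01) P.hL12) P.ha
  have h0 : ∀ᶠ ε in 𝓝[>] (0:ℝ), 0 < ε := eventually_mem_nhdsWithin
  have hk : ∀ K > (0:ℝ), ∀ᶠ ε in 𝓝[>] (0:ℝ), ε < K := fun K hK =>
    (eventually_lt_nhds hK).filter_mono nhdsWithin_le_nhds
  filter_upwards [h0, hk 1 one_pos, hk P.M hM, hk P.m hm, hk (P.m / P.c) (by positivity),
    hk (1 / P.c) (by positivity), hk (1 / P.a) (by positivity),
    hk (P.M / P.a) (by positivity)] with ε h0 h1 h2 h3 h4 h5 h6 h7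
  rw [lt_div_iff₀ hc] at h4 h5
  rw [lt_div_iff₀ ha] at h6 h7
  have hsq : ε ^ 2 ≤ ε := by nlinarith
  have hsq0 : 0 < ε ^ 2 := by positivity
  have hc2 : ε ^ 2 * ε ^ 2 ≤ ε := by nlinarith
  have hc3 : ε * ε ^ 2 ≤ ε := by nlinarith
  refine ⟨h0, ?_, ?_, ?_, ?_, ?_, ?_, ?_⟩
  · rw [le_div_iff₀ hsq0]; linarith
  · rw [le_div_iff₀ hsq0]; linarith
  · rw [le_div_iff₀ hsq0]
    nlinarith
  · nlinarith
  · rw [le_div_iff₀ h0]; nlinarith
  · rw [le_div_iff₀ h0]; nlinarith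
  · rw [le_div_iff₀ hsq0]; nlinarith

section
variable {P} {ε : ℝ} (h : Small P ε)
include h

theorem ε3 : 0 < ε ^ 3 := pow_pos h.pos 3

theorem hT_H {s : ℝ} (hs : s ≤ P.s1 ε) : hT P ε s = P.M / ε ^ 2 := by
  have w := ε3 h
  have p := h.pos
  have q := P.hτ
  have z : ∀ b, s ≤ b → tr (ε ^ 3) b s = 0 := fun b hb => tr_zero w hb
  unfold hT
  simp only [Par.s1, Par.s3, Par.s5, Par.s7, Par.s9, Par.s11, Par.s13] at hs ⊢
  rw [z _ (by linarith), z _ (by linarith), z _ (by linarith), z _ (by linarith),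
    z _ (by linarith), z _ (by linarith), z _ (by linarith)]
  ring

theorem hT_J1 {s : ℝ} (hs : s ∈ Icc (P.s1 ε) (P.s2 ε)) : hT P ε s ∈ Icc 1 (P.M / ε ^ 2) := by
  have w := ε3 h
  have p := h.pos
  have q := P.hτ
  have z : ∀ b, s ≤ b → tr (ε ^ 3) b s = 0 := fun b hb => tr_zero w hb
  have e : hT P ε s = P.M / ε ^ 2 + (1 - P.M / ε ^ 2) * tr (ε ^ 3) (P.s1 ε) s := by
    unfold hT
    simp only [mem_Icc, Par.s1, Par.s2, Par.s3, Par.s5, Par.s7, Par.s9, Par.s11, Par.s13] at hs ⊢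
    rw [z (3 * ε / 2 + ε ^ 3) (by linarith), z (5 * ε / 2 + 2 * ε ^ 3) (by linarith),
      z (7 * ε / 2 + 3 * ε ^ 3) (by linarith), z (P.τ + 7 * ε / 2 + 4 * ε ^ 3) (by linarith),
      z (P.τ + 9 * ε / 2 + 5 * ε ^ 3) (by linarith), z (P.τ + 11 * ε / 2 + 6 * ε ^ 3) (by linarith)]
    ring
  rw [e]
  exact mix_down h.o1 (tr_mem _ _ _)

theorem hT_N1 {s : ℝ} (hs : s ∈ Icc (P.s2 ε) (P.s3 ε)) : hT P ε s = 1 := by
  have w := ε3 h
  have p := h.pos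
  have q := P.hτ
  have z : ∀ b, s ≤ b → tr (ε ^ 3) b s = 0 := fun b hb => tr_zero w hb
  have o : ∀ b, b + ε ^ 3 ≤ s → tr (ε ^ 3) b s = 1 := fun b hb => tr_one w hb
  unfold hT
  simp only [mem_Icc, Par.s1, Par.s2, Par.s3, Par.s5, Par.s7, Par.s9, Par.s11, Par.s13] at hs ⊢
  rw [o (ε / 2) (by linarith), z (3 * ε / 2 + ε ^ 3) (by linarith),
    z (5 * ε / 2 + 2 * ε ^ 3) (by linarith),
    z (7 * ε / 2 + 3 * ε ^ 3) (by linarith), z (P.τ + 7 * ε / 2 + 4 * ε ^ 3) (by linarith),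
    z (P.τ + 9 * ε / 2 + 5 * ε ^ 3) (by linarith), z (P.τ + 11 * ε / 2 + 6 * ε ^ 3) (by linarith)]
  ring

theorem hT_J2 {s : ℝ} (hs : s ∈ Icc (P.s3 ε) (P.s4 ε)) : hT P ε s ∈ Icc 1 (P.m / ε ^ 2) := by
  have w := ε3 h
  have p := h.pos
  have q := P.hτ
  have z : ∀ b, s ≤ b → tr (ε ^ 3) b s = 0 := fun b hb => tr_zero w hb
  have o : ∀ b, b + ε ^ 3 ≤ s → tr (ε ^ 3) b s = 1 := fun b hb => tr_one w hb
  have e : hT P ε s = 1 + (P.m / ε ^ 2 - 1) * tr (ε ^ 3) (P.s3 ε) s := by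
    unfold hT
    simp only [mem_Icc, Par.s1, Par.s4, Par.s3, Par.s5, Par.s7, Par.s9, Par.s11, Par.s13] at hs ⊢
    rw [o (ε / 2) (by linarith), z (5 * ε / 2 + 2 * ε ^ 3) (by linarith),
      z (7 * ε / 2 + 3 * ε ^ 3) (by linarith), z (P.τ + 7 * ε / 2 + 4 * ε ^ 3) (by linarith),
      z (P.τ + 9 * ε / 2 + 5 * ε ^ 3) (by linarith), z (P.τ + 11 * ε / 2 + 6 * ε ^ 3) (by linarith)]
    ring
  rw [e]
  exact mix_up h.o2 (tr_mem _ _ _)

theorem hT_L {s : ℝ} (hs : s ∈ Icc (P.s4 ε) (P.s5 ε)) : hT P ε s = P.m / ε ^ 2 := by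
  have w := ε3 h
  have p := h.pos
  have q := P.hτ
  have z : ∀ b, s ≤ b → tr (ε ^ 3) b s = 0 := fun b hb => tr_zero w hb
  have o : ∀ b, b + ε ^ 3 ≤ s → tr (ε ^ 3) b s = 1 := fun b hb => tr_one w hb
  unfold hT
  simp only [mem_Icc, Par.s1, Par.s4, Par.s3, Par.s5, Par.s7, Par.s9, Par.s11, Par.s13] at hs ⊢
  rw [o (ε / 2) (by linarith), o (3 * ε / 2 + ε ^ 3) (by linarith),
    z (5 * ε / 2 + 2 * ε ^ 3) (by linarith),
    z (7 * ε / 2 + 3 * ε ^ 3) (by linarith), z (P.τ + 7 * ε / 2 + 4 * ε ^ 3) (by linarith),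
    z (P.τ + 9 * ε / 2 + 5 * ε ^ 3) (by linarith), z (P.τ + 11 * ε / 2 + 6 * ε ^ 3) (by linarith)]
  ring

theorem hT_J3 {s : ℝ} (hs : s ∈ Icc (P.s5 ε) (P.s6 ε)) :
    hT P ε s ∈ Icc (P.c * ε ^ 2) (P.m / ε ^ 2) := by
  have w := ε3 h
  have p := h.pos
  have q := P.hτ
  have z : ∀ b, s ≤ b → tr (ε ^ 3) b s = 0 := fun b hb => tr_zero w hb
  have o : ∀ b, b + ε ^ 3 ≤ s → tr (ε ^ 3) b s = 1 := fun b hb => tr_one w hb
  have e : hT P ε s = P.m / ε ^ 2 + (P.c * ε ^ 2 - P.m / ε ^ 2) * tr (ε ^ 3) (P.s5 ε) s := by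
    unfold hT
    simp only [mem_Icc, Par.s1, Par.s6, Par.s3, Par.s5, Par.s7, Par.s9, Par.s11, Par.s13] at hs ⊢
    rw [o (ε / 2) (by linarith), o (3 * ε / 2 + ε ^ 3) (by linarith),
      z (7 * ε / 2 + 3 * ε ^ 3) (by linarith), z (P.τ + 7 * ε / 2 + 4 * ε ^ 3) (by linarith),
      z (P.τ + 9 * ε / 2 + 5 * ε ^ 3) (by linarith), z (P.τ + 11 * ε / 2 + 6 * ε ^ 3) (by linarith)]
    ring
  rw [e]
  exact mix_down h.o3 (tr_mem _ _ _)

theorem hT_N2 {s : ℝ} (hs : s ∈ Icc (P.s6 ε) (P.s7 ε)) : hT P ε s = P.c * ε ^ 2 := by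
  have w := ε3 h
  have p := h.pos
  have q := P.hτ
  have z : ∀ b, s ≤ b → tr (ε ^ 3) b s = 0 := fun b hb => tr_zero w hb
  have o : ∀ b, b + ε ^ 3 ≤ s → tr (ε ^ 3) b s = 1 := fun b hb => tr_one w hb
  unfold hT
  simp only [mem_Icc, Par.s1, Par.s6, Par.s3, Par.s5, Par.s7, Par.s9, Par.s11, Par.s13] at hs ⊢
  rw [o (ε / 2) (by linarith), o (3 * ε / 2 + ε ^ 3) (by linarith),
    o (5 * ε / 2 + 2 * ε ^ 3) (by linarith),
    z (7 * ε / 2 + 3 * ε ^ 3) (by linarith), z (P.τ + 7 * ε / 2 + 4 * ε ^ 3) (by linarith),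
    z (P.τ + 9 * ε / 2 + 5 * ε ^ 3) (by linarith), z (P.τ + 11 * ε / 2 + 6 * ε ^ 3) (by linarith)]
  ring

theorem hT_J4 {s : ℝ} (hs : s ∈ Icc (P.s7 ε) (P.s8 ε)) : hT P ε s ∈ Icc (P.c * ε ^ 2) ε := by
  have w := ε3 h
  have p := h.pos
  have q := P.hτ
  have z : ∀ b, s ≤ b → tr (ε ^ 3) b s = 0 := fun b hb => tr_zero w hb
  have o : ∀ b, b + ε ^ 3 ≤ s → tr (ε ^ 3) b s = 1 := fun b hb => tr_one w hb
  have e : hT P ε s = P.c * ε ^ 2 + (ε - P.c * ε ^ 2) * tr (ε ^ 3) (P.s7 ε) s := by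
    unfold hT
    simp only [mem_Icc, Par.s1, Par.s8, Par.s3, Par.s5, Par.s7, Par.s9, Par.s11, Par.s13] at hs ⊢
    rw [o (ε / 2) (by linarith), o (3 * ε / 2 + ε ^ 3) (by linarith),
      o (5 * ε / 2 + 2 * ε ^ 3) (by linarith), z (P.τ + 7 * ε / 2 + 4 * ε ^ 3) (by linarith),
      z (P.τ + 9 * ε / 2 + 5 * ε ^ 3) (by linarith), z (P.τ + 11 * ε / 2 + 6 * ε ^ 3) (by linarith)]
    ring
  rw [e]
  exact mix_up h.o4 (tr_mem _ _ _)

theorem hT_Q {s : ℝ} (hs : s ∈ Icc (P.s8 ε) (P.s9 ε)) : hT P ε s = ε := by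
  have w := ε3 h
  have p := h.pos
  have q := P.hτ
  have z : ∀ b, s ≤ b → tr (ε ^ 3) b s = 0 := fun b hb => tr_zero w hb
  have o : ∀ b, b + ε ^ 3 ≤ s → tr (ε ^ 3) b s = 1 := fun b hb => tr_one w hb
  unfold hT
  simp only [mem_Icc, Par.s1, Par.s8, Par.s3, Par.s5, Par.s7, Par.s9, Par.s11, Par.s13] at hs ⊢
  rw [o (ε / 2) (by linarith), o (3 * ε / 2 + ε ^ 3) (by linarith),
    o (5 * ε / 2 + 2 * ε ^ 3) (by linarith), o (7 * ε / 2 + 3 * ε ^ 3) (by linarith),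
    z (P.τ + 7 * ε / 2 + 4 * ε ^ 3) (by linarith),
    z (P.τ + 9 * ε / 2 + 5 * ε ^ 3) (by linarith), z (P.τ + 11 * ε / 2 + 6 * ε ^ 3) (by linarith)]
  ring

theorem hT_J5 {s : ℝ} (hs : s ∈ Icc (P.s9 ε) (P.s10 ε)) : hT P ε s ∈ Icc ε (1 / ε) := by
  have w := ε3 h
  have p := h.pos
  have q := P.hτ
  have z : ∀ b, s ≤ b → tr (ε ^ 3) b s = 0 := fun b hb => tr_zero w hb
  have o : ∀ b, b + ε ^ 3 ≤ s → tr (ε ^ 3) b s = 1 := fun b hb => tr_one w hb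
  have e : hT P ε s = ε + (1 / ε - ε) * tr (ε ^ 3) (P.s9 ε) s := by
    unfold hT
    simp only [mem_Icc, Par.s1, Par.s10, Par.s3, Par.s5, Par.s7, Par.s9, Par.s11, Par.s13] at hs ⊢
    rw [o (ε / 2) (by linarith), o (3 * ε / 2 + ε ^ 3) (by linarith),
      o (5 * ε / 2 + 2 * ε ^ 3) (by linarith), o (7 * ε / 2 + 3 * ε ^ 3) (by linarith),
      z (P.τ + 9 * ε / 2 + 5 * ε ^ 3) (by linarith), z (P.τ + 11 * ε / 2 + 6 * ε ^ 3) (by linarith)]
    ring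
  rw [e]
  exact mix_up h.o5 (tr_mem _ _ _)

theorem hT_R {s : ℝ} (hs : s ∈ Icc (P.s10 ε) (P.s11 ε)) : hT P ε s = 1 / ε := by
  have w := ε3 h
  have p := h.pos
  have q := P.hτ
  have z : ∀ b, s ≤ b → tr (ε ^ 3) b s = 0 := fun b hb => tr_zero w hb
  have o : ∀ b, b + ε ^ 3 ≤ s → tr (ε ^ 3) b s = 1 := fun b hb => tr_one w hb
  unfold hT
  simp only [mem_Icc, Par.s1, Par.s10, Par.s3, Par.s5, Par.s7, Par.s9, Par.s11, Par.s13] at hs ⊢
  rw [o (ε / 2) (by linarith), o (3 * ε / 2 + ε ^ 3) (by linarith),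
    o (5 * ε / 2 + 2 * ε ^ 3) (by linarith), o (7 * ε / 2 + 3 * ε ^ 3) (by linarith),
    o (P.τ + 7 * ε / 2 + 4 * ε ^ 3) (by linarith),
    z (P.τ + 9 * ε / 2 + 5 * ε ^ 3) (by linarith), z (P.τ + 11 * ε / 2 + 6 * ε ^ 3) (by linarith)]
  ring

theorem hT_J6 {s : ℝ} (hs : s ∈ Icc (P.s11 ε) (P.s12 ε)) :
    hT P ε s ∈ Icc (P.a * ε) (1 / ε) := by
  have w := ε3 h
  have p := h.pos
  have q := P.hτ
  have z : ∀ b, s ≤ b → tr (ε ^ 3) b s = 0 := fun b hb => tr_zero w hb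
  have o : ∀ b, b + ε ^ 3 ≤ s → tr (ε ^ 3) b s = 1 := fun b hb => tr_one w hb
  have e : hT P ε s = 1 / ε + (P.a * ε - 1 / ε) * tr (ε ^ 3) (P.s11 ε) s := by
    unfold hT
    simp only [mem_Icc, Par.s1, Par.s12, Par.s3, Par.s5, Par.s7, Par.s9, Par.s11, Par.s13] at hs ⊢
    rw [o (ε / 2) (by linarith), o (3 * ε / 2 + ε ^ 3) (by linarith),
      o (5 * ε / 2 + 2 * ε ^ 3) (by linarith), o (7 * ε / 2 + 3 * ε ^ 3) (by linarith),
      o (P.τ + 7 * ε / 2 + 4 * ε ^ 3) (by linarith), z (P.τ + 11 * ε / 2 + 6 * ε ^ 3) (by linarith)]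
    ring
  rw [e]
  exact mix_down h.o6 (tr_mem _ _ _)

theorem hT_N3 {s : ℝ} (hs : s ∈ Icc (P.s12 ε) (P.s13 ε)) : hT P ε s = P.a * ε := by
  have w := ε3 h
  have p := h.pos
  have q := P.hτ
  have z : ∀ b, s ≤ b → tr (ε ^ 3) b s = 0 := fun b hb => tr_zero w hb
  have o : ∀ b, b + ε ^ 3 ≤ s → tr (ε ^ 3) b s = 1 := fun b hb => tr_one w hb
  unfold hT
  simp only [mem_Icc, Par.s1, Par.s12, Par.s3, Par.s5, Par.s7, Par.s9, Par.s11, Par.s13] at hs ⊢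
  rw [o (ε / 2) (by linarith), o (3 * ε / 2 + ε ^ 3) (by linarith),
    o (5 * ε / 2 + 2 * ε ^ 3) (by linarith), o (7 * ε / 2 + 3 * ε ^ 3) (by linarith),
    o (P.τ + 7 * ε / 2 + 4 * ε ^ 3) (by linarith),
    o (P.τ + 9 * ε / 2 + 5 * ε ^ 3) (by linarith), z (P.τ + 11 * ε / 2 + 6 * ε ^ 3) (by linarith)]
  ring

theorem hT_J7 {s : ℝ} (hs : s ∈ Icc (P.s13 ε) (P.s14 ε)) :
    hT P ε s ∈ Icc (P.a * ε) (P.M / ε ^ 2) := by
  have w := ε3 h
  have p := h.pos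
  have q := P.hτ
  have o : ∀ b, b + ε ^ 3 ≤ s → tr (ε ^ 3) b s = 1 := fun b hb => tr_one w hb
  have e : hT P ε s = P.a * ε + (P.M / ε ^ 2 - P.a * ε) * tr (ε ^ 3) (P.s13 ε) s := by
    unfold hT
    simp only [mem_Icc, Par.s1, Par.s14, Par.s3, Par.s5, Par.s7, Par.s9, Par.s11, Par.s13] at hs ⊢
    rw [o (ε / 2) (by linarith), o (3 * ε / 2 + ε ^ 3) (by linarith),
      o (5 * ε / 2 + 2 * ε ^ 3) (by linarith), o (7 * ε / 2 + 3 * ε ^ 3) (by linarith),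
      o (P.τ + 7 * ε / 2 + 4 * ε ^ 3) (by linarith), o (P.τ + 9 * ε / 2 + 5 * ε ^ 3) (by linarith)]
    ring
  rw [e]
  exact mix_up h.o7 (tr_mem _ _ _)

theorem hT_H' {s : ℝ} (hs : P.s14 ε ≤ s) : hT P ε s = P.M / ε ^ 2 := by
  have w := ε3 h
  have p := h.pos
  have q := P.hτ
  have o : ∀ b, b + ε ^ 3 ≤ s → tr (ε ^ 3) b s = 1 := fun b hb => tr_one w hb
  unfold hT
  simp only [Par.s1, Par.s14, Par.s3, Par.s5, Par.s7, Par.s9, Par.s11, Par.s13] at hs ⊢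
  rw [o (ε / 2) (by linarith), o (3 * ε / 2 + ε ^ 3) (by linarith),
    o (5 * ε / 2 + 2 * ε ^ 3) (by linarith), o (7 * ε / 2 + 3 * ε ^ 3) (by linarith),
    o (P.τ + 7 * ε / 2 + 4 * ε ^ 3) (by linarith),
    o (P.τ + 9 * ε / 2 + 5 * ε ^ 3) (by linarith), o (P.τ + 11 * ε / 2 + 6 * ε ^ 3) (by linarith)]
  ring

theorem hT_pos (s : ℝ) : 0 < hT P ε s := by
  have p := h.pos
  have hM := P.hM
  have hm := P.hm
  have hc := P.hc
  have ha : 0 < P.a := lt_trans (lt_trans (lt_trans P.hL0 P.hL01) P.hL12) P.ha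
  have k0 : 0 < P.M / ε ^ 2 := by positivity
  have k2 : 0 < P.m / ε ^ 2 := by positivity
  have k3 : 0 < P.c * ε ^ 2 := by positivity
  have k5 : 0 < 1 / ε := by positivity
  have k6 : 0 < P.a * ε := by positivity
  rcases le_total s (P.s1 ε) with h1 | h1
  · rw [hT_H h h1]; exact k0
  rcases le_total s (P.s2 ε) with h2 | h2
  · exact lt_of_lt_of_le one_pos (hT_J1 h ⟨h1, h2⟩).1
  rcases le_total s (P.s3 ε) with h3 | h3
  · rw [hT_N1 h ⟨h2, h3⟩]; exact one_pos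
  rcases le_total s (P.s4 ε) with h4 | h4
  · exact lt_of_lt_of_le one_pos (hT_J2 h ⟨h3, h4⟩).1
  rcases le_total s (P.s5 ε) with h5 | h5
  · rw [hT_L h ⟨h4, h5⟩]; exact k2
  rcases le_total s (P.s6 ε) with h6 | h6
  · exact lt_of_lt_of_le k3 (hT_J3 h ⟨h5, h6⟩).1
  rcases le_total s (P.s7 ε) with h7 | h7
  · rw [hT_N2 h ⟨h6, h7⟩]; exact k3
  rcases le_total s (P.s8 ε) with h8 | h8
  · exact lt_of_lt_of_le k3 (hT_J4 h ⟨h7, h8⟩).1
  rcases le_total s (P.s9 ε) with h9 | h9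
  · rw [hT_Q h ⟨h8, h9⟩]; exact p
  rcases le_total s (P.s10 ε) with h10 | h10
  · exact lt_of_lt_of_le p (hT_J5 h ⟨h9, h10⟩).1
  rcases le_total s (P.s11 ε) with h11 | h11
  · rw [hT_R h ⟨h10, h11⟩]; exact k5
  rcases le_total s (P.s12 ε) with h12 | h12
  · exact lt_of_lt_of_le k6 (hT_J6 h ⟨h11, h12⟩).1
  rcases le_total s (P.s13 ε) with h13 | h13
  · rw [hT_N3 h ⟨h12, h13⟩]; exact k6
  rcases le_total s (P.s14 ε) with h14 | h14
  · exact lt_of_lt_of_le k6 (hT_J7 h ⟨h13, h14⟩).1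
  · rw [hT_H' h h14]; exact k0

end

theorem ringExists : RingExists := by
  intro P
  filter_upwards [small_ev P] with ε h
  have p := h.pos
  have w : 0 < ε ^ 3 := ε3 h
  have q := P.hτ
  have hℓ : 0 < P.ell ε := by unfold Par.ell; positivity
  have c0 : hT P ε 0 = P.M / ε ^ 2 := hT_H h (by unfold Par.s1; positivity)
  have c1 : hT P ε (P.ell ε) = P.M / ε ^ 2 := hT_H' h (by unfold Par.s14 Par.ell; linarith)
  have key : ∀ s, 0 ≤ s → s ≤ P.ell ε → perz (P.ell ε) (hT P ε) s = hT P ε s :=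
    fun s h0 h1 => perz_eq hℓ c0 c1 ⟨h0, h1⟩
  refine ⟨perz (P.ell ε) (hT P ε), ?_, perz_add hℓ _, fun s => hT_pos h _, ?_, ?_, ?_, ?_, ?_, ?_,
    ?_, ?_, ?_, ?_, ?_, ?_, ?_, ?_, ?_⟩
  · refine perz_contDiff hℓ (hT_contDiff P ε) (c := P.M / ε ^ 2) (α := P.s1 ε) (β := P.s14 ε)
      (by unfold Par.s1; positivity) (by unfold Par.s14 Par.ell; linarith)
      (fun s hs => hT_H h hs) fun s hs => hT_H' h hs
  · intro s hs
    rw [key s (by simp only [mem_Icc, Par.s1] at hs; linarith)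
      (by simp only [mem_Icc, Par.s1] at hs; unfold Par.ell; linarith)]
    exact hT_H h hs.2
  · intro s hs
    rw [key s (by simp only [mem_Icc, Par.s1] at hs; linarith)
      (by simp only [mem_Icc, Par.s2] at hs; unfold Par.ell; linarith)]
    exact hT_J1 h hs
  · intro s hs
    rw [key s (by simp only [mem_Icc, Par.s2] at hs; linarith)
      (by simp only [mem_Icc, Par.s3] at hs; unfold Par.ell; linarith)]
    exact hT_N1 h hs
  · intro s hs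
    rw [key s (by simp only [mem_Icc, Par.s3] at hs; linarith)
      (by simp only [mem_Icc, Par.s4] at hs; unfold Par.ell; linarith)]
    exact hT_J2 h hs
  · intro s hs
    rw [key s (by simp only [mem_Icc, Par.s4] at hs; linarith)
      (by simp only [mem_Icc, Par.s5] at hs; unfold Par.ell; linarith)]
    exact hT_L h hs
  · intro s hs
    rw [key s (by simp only [mem_Icc, Par.s5] at hs; linarith)
      (by simp only [mem_Icc, Par.s6] at hs; unfold Par.ell; linarith)]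
    exact hT_J3 h hs
  · intro s hs
    rw [key s (by simp only [mem_Icc, Par.s6] at hs; linarith)
      (by simp only [mem_Icc, Par.s7] at hs; unfold Par.ell; linarith)]
    exact hT_N2 h hs
  · intro s hs
    rw [key s (by simp only [mem_Icc, Par.s7] at hs; linarith)
      (by simp only [mem_Icc, Par.s8] at hs; unfold Par.ell; linarith)]
    exact hT_J4 h hs
  · intro s hs
    rw [key s (by simp only [mem_Icc, Par.s8] at hs; linarith)
      (by simp only [mem_Icc, Par.s9] at hs; unfold Par.ell; linarith)]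
    exact hT_Q h hs
  · intro s hs
    rw [key s (by simp only [mem_Icc, Par.s9] at hs; linarith)
      (by simp only [mem_Icc, Par.s10] at hs; unfold Par.ell; linarith)]
    exact hT_J5 h hs
  · intro s hs
    rw [key s (by simp only [mem_Icc, Par.s10] at hs; linarith)
      (by simp only [mem_Icc, Par.s11] at hs; unfold Par.ell; linarith)]
    exact hT_R h hs
  · intro s hs
    rw [key s (by simp only [mem_Icc, Par.s11] at hs; linarith)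
      (by simp only [mem_Icc, Par.s12] at hs; unfold Par.ell; linarith)]
    exact hT_J6 h hs
  · intro s hs
    rw [key s (by simp only [mem_Icc, Par.s12] at hs; linarith)
      (by simp only [mem_Icc, Par.s13] at hs; unfold Par.ell; linarith)]
    exact hT_N3 h hs
  · intro s hs
    rw [key s (by simp only [mem_Icc, Par.s13] at hs; linarith)
      (by simp only [mem_Icc, Par.s14] at hs; unfold Par.ell; linarith)]
    exact hT_J7 h hs
  · intro s hs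
    rw [key s (by simp only [mem_Icc, Par.s14] at hs; linarith) hs.2]
    exact hT_H' h hs.1

end Pool.Agent.Lib.MP_e46711_an.H19
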